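import Mathlib

/-!
# The Jacobson radical of a pi-UU ring is nil

A ring `R` (associative, with `1`, not necessarily commutative) is pi-UU if every unit `u` has a
power `u ^ i`, `i ≥ 1`, in `1 + Nil R`.  We prove that then every element of the Jacobson radical
is nilpotent.
-/

namespace Pool.Agent.Results.MP_c8c065_al.JacobsonNil

open Polynomial

universe u

theorem isUnit_one_add {R : Type u} [Ring R] {x : R} (hx : x ∈ Ring.jacobson R) :
    IsUnit (1 + x) := by
  have key : ∀ y : R, y ∈ Ring.jacobson R → ∃ s : R, s * (y + 1) = 1 := by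
    intro y hy
    rw [← Ideal.jacobson_bot] at hy
    obtain ⟨s, hs⟩ := Ideal.exists_mul_add_sub_mem_of_mem_jacobson y hy
    exact ⟨s, sub_eq_zero.mp (by simpa using hs)⟩
  obtain ⟨s, hs⟩ := key x hx
  have hs1 : s = -(s * x) + 1 := by
    have : s * x + s = 1 := by rw [← hs]; noncomm_ring
    rw [← this]; abel
  obtain ⟨r, hr⟩ := key (-(s * x)) ((Ring.jacobson R).neg_mem ((Ring.jacobson R).mul_mem_left s hx))
  rw [← hs1] at hr
  have h2 : r = x + 1 := by
    calc r = r * (s * (x + 1)) := by rw [hs, mul_one]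
      _ = (r * s) * (x + 1) := by rw [mul_assoc]
      _ = x + 1 := by rw [hr, one_mul]
  rw [h2] at hr
  refine ⟨⟨1 + x, s, ?_, ?_⟩, rfl⟩
  · rw [add_comm]; exact hr
  · rw [add_comm]; exact hs

/-- The multiplicative set of all `X ^ n * (1 + X * g)` in `ℤ[X]`. -/
def mset : Submonoid ℤ[X] where
  carrier := {p | ∃ (n : ℕ) (g : ℤ[X]), p = X ^ n * (1 + X * g)}
  one_mem' := ⟨0, 0, by simp⟩
  mul_mem' := by
    rintro _ _ ⟨n, g, rfl⟩ ⟨m, h, rfl⟩
    exact ⟨n + m, g + h + X * g * h, by ring⟩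

theorem expansion (m : ℕ) : ∃ h : ℤ[X], (1 + X) ^ m = 1 + (m : ℤ[X]) * X + X ^ 2 * h := by
  induction m with
  | zero => exact ⟨0, by simp⟩
  | succ m ih =>
    obtain ⟨h, hh⟩ := ih
    refine ⟨(m : ℤ[X]) + h + X * h, ?_⟩
    rw [pow_succ, hh]
    push_cast
    ring

/-- An element `z` of a field of characteristic zero such that `1 + z` and `1 - z` are roots of
unity is zero. -/
theorem eq_zero_of_charZero {K : Type*} [Field K] [CharZero K] (z : K) (i k : ℕ) (hi : 1 ≤ i)
    (hk : 1 ≤ k) (h1 : (1 + z) ^ i = 1) (h2 : (1 - z) ^ k = 1) : z = 0 := by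
  have hint : IsIntegral ℚ z := by
    have : IsIntegral ℚ (1 + z) := by
      refine IsIntegral.of_pow hi ?_
      rw [h1]; exact isIntegral_one
    have h3 : z = (1 + z) - 1 := by ring
    rw [h3]
    exact this.sub isIntegral_one
  set m := minpoly ℚ z with hm
  have hdeg : m.degree ≠ 0 := (minpoly.degree_pos hint).ne'
  obtain ⟨w, hw⟩ := IsAlgClosed.exists_aeval_eq_zero ℂ m hdeg
  have hd1 : m ∣ (1 + X) ^ i - 1 := minpoly.dvd ℚ z (by simp [h1])
  have hd2 : m ∣ (1 - X) ^ k - 1 := minpoly.dvd ℚ z (by simp [h2])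
  have hw1 : (1 + w) ^ i = 1 := by
    obtain ⟨q, hq⟩ := hd1
    have := congrArg (aeval w) hq
    simp only [map_sub, map_pow, map_add, map_one, aeval_X, map_mul, hw, zero_mul] at this
    exact sub_eq_zero.mp this
  have hw2 : (1 - w) ^ k = 1 := by
    obtain ⟨q, hq⟩ := hd2
    have := congrArg (aeval w) hq
    simp only [map_sub, map_pow, map_one, aeval_X, map_mul, hw, zero_mul] at this
    exact sub_eq_zero.mp this
  have hn1 : ‖1 + w‖ = 1 := Complex.norm_eq_one_of_pow_eq_one hw1 (by omega)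
  have hn2 : ‖1 - w‖ = 1 := Complex.norm_eq_one_of_pow_eq_one hw2 (by omega)
  have hpar := parallelogram_law_with_norm ℝ (1 : ℂ) w
  rw [hn1, hn2] at hpar
  simp only [norm_one] at hpar
  have hw0 : ‖w‖ = 0 := by nlinarith [norm_nonneg w]
  have hw00 : w = 0 := norm_eq_zero.mp hw0
  rw [hw00] at hw
  have hc : m.coeff 0 = 0 := by
    have : aeval (0 : ℂ) m = ((m.coeff 0 : ℚ) : ℂ) := by
      rw [aeval_def, eval₂_at_zero]; rfl
    rw [this] at hw
    exact_mod_cast hw
  exact (minpoly.coeff_zero_eq_zero hint).mp hc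

/-- **Main theorem.** If `R` is a ring in which every unit has a positive power in `1 + Nil R`,
then every element of the Jacobson radical of `R` is nilpotent. -/
theorem result (R : Type u) [Ring R]
    (hR : ∀ v : Rˣ, ∃ i : ℕ, 1 ≤ i ∧ ∃ n : R, IsNilpotent n ∧ (v : R) ^ i = 1 + n) :
    ∀ j ∈ Ring.jacobson R, IsNilpotent j := by
  intro j hj
  by_contra hnil
  let φ : ℤ[X] →ₐ[ℤ] R := aeval j
  have hφX : φ X = j := aeval_X j
  have hunit : ∀ g : ℤ[X], IsUnit (φ (1 + X * g)) := by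
    intro g
    have h1 : φ (1 + X * g) = 1 + φ g * j := by
      rw [mul_comm X g]; simp [hφX]
    rw [h1]
    exact isUnit_one_add ((Ring.jacobson R).mul_mem_left _ hj)
  have hdisj : Disjoint ((RingHom.ker φ : Ideal ℤ[X]) : Set ℤ[X]) (mset : Set ℤ[X]) := by
    rw [Set.disjoint_left]
    rintro p hp ⟨n, g, rfl⟩
    have h0 : φ (X ^ n * (1 + X * g)) = 0 := hp
    rw [map_mul, map_pow, hφX] at h0
    apply hnil
    refine ⟨n, ?_⟩
    exact (hunit g).mul_left_eq_zero.mp h0
  obtain ⟨P, hPprime, hIP, hPdisj⟩ := Ideal.exists_le_prime_disjoint _ mset hdisj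
  have := hPprime
  have hnot : ∀ (n : ℕ) (g : ℤ[X]), X ^ n * (1 + X * g) ∉ P := by
    intro n g hmem
    exact Set.disjoint_left.mp hPdisj hmem ⟨n, g, rfl⟩
  have hX : (X : ℤ[X]) ∉ P := by
    have := hnot 1 0
    simpa using this
  -- every unit of the form `φ q` gives a root of unity modulo `P`
  have hroot : ∀ q : ℤ[X], IsUnit (φ q) → ∃ i : ℕ, 1 ≤ i ∧ q ^ i - 1 ∈ P := by
    intro q hq
    obtain ⟨v, hv⟩ := hq
    obtain ⟨i, hi, n, ⟨N, hN⟩, hpow⟩ := hR v
    refine ⟨i, hi, ?_⟩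
    apply hPprime.mem_of_pow_mem N
    apply hIP
    change φ ((q ^ i - 1) ^ N) = 0
    have : φ (q ^ i - 1) = n := by
      rw [map_sub, map_pow, map_one, ← hv, hpow]; abel
    rw [map_pow, this, hN]
  obtain ⟨i, hi, hi'⟩ := hroot (1 + X) (by simpa using hunit 1)
  obtain ⟨k, hk, hk'⟩ := hroot (1 - X) (by
    have h := hunit (-1)
    have h2 : (1 + X * (-1) : ℤ[X]) = 1 - X := by ring
    rwa [h2] at h)
  -- pass to the fraction field of `ℤ[X] / P`
  let D := ℤ[X] ⧸ P
  let K := FractionRing D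
  let ψ : ℤ[X] →+* K := (algebraMap D K).comp (Ideal.Quotient.mk P)
  have hψ : ∀ q : ℤ[X], ψ q = 0 ↔ q ∈ P := by
    intro q
    change algebraMap D K (Ideal.Quotient.mk P q) = 0 ↔ _
    rw [map_eq_zero_iff _ (IsFractionRing.injective D K), Ideal.Quotient.eq_zero_iff_mem]
  set z : K := ψ X with hz
  have hz0 : z ≠ 0 := fun h => hX ((hψ X).mp h)
  have h1 : (1 + z) ^ i = 1 := by
    have := (hψ _).mpr hi'
    simp only [map_sub, map_pow, map_add, map_one] at this
    exact sub_eq_zero.mp this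
  have h2 : (1 - z) ^ k = 1 := by
    have := (hψ _).mpr hk'
    simp only [map_sub, map_pow, map_one] at this
    exact sub_eq_zero.mp this
  obtain ⟨p, hp⟩ := CharP.exists K
  rcases CharP.char_is_prime_or_zero K p with hpp | rfl
  · have := Fact.mk hpp
    obtain ⟨a, m, hm, him⟩ := Nat.exists_eq_pow_mul_and_not_dvd (n := i) (by omega) p hpp.ne_one
    have h3 : (1 + z) ^ m = 1 := by
      have h4 : ((1 + z) ^ m - 1) ^ p ^ a = 0 := by
        rw [sub_pow_char_pow, ← pow_mul, mul_comm m, ← him, h1, one_pow, sub_self]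
      exact sub_eq_zero.mp (pow_eq_zero_iff (pow_ne_zero _ hpp.ne_zero) |>.mp h4)
    obtain ⟨h, hh⟩ := expansion m
    have h5 : ψ (X * ((m : ℤ[X]) + X * h)) = 0 := by
      have h6 : X * ((m : ℤ[X]) + X * h) = (1 + X) ^ m - 1 := by rw [hh]; ring
      rw [h6]
      simp only [map_sub, map_pow, map_add, map_one]
      rw [← hz, h3, sub_self]
    have h7 : (m : ℤ[X]) + X * h ∈ P :=
      (hPprime.mem_or_mem ((hψ _).mp h5)).resolve_left hX
    have hpP : (p : ℤ[X]) ∈ P := by
      rw [← hψ]; simp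
    have hcop : IsCoprime (m : ℤ) (p : ℤ) := by
      rw [Nat.isCoprime_iff_coprime]
      exact ((Nat.Prime.coprime_iff_not_dvd hpp).mpr hm).symm
    obtain ⟨s, t, hst⟩ := hcop
    have hst' : (C s : ℤ[X]) * (m : ℤ[X]) + C t * (p : ℤ[X]) = 1 := by
      have := congrArg (C : ℤ →+* ℤ[X]) hst
      simpa using this
    have h8 : X ^ 0 * (1 + X * (C s * h)) ∈ P := by
      have h9 : X ^ 0 * (1 + X * (C s * h)) =
          C s * ((m : ℤ[X]) + X * h) + C t * (p : ℤ[X]) := by
        rw [pow_zero, one_mul, ← hst']; ring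
      rw [h9]
      exact P.add_mem (P.mul_mem_left _ h7) (P.mul_mem_left _ hpP)
    exact hnot 0 _ h8
  · have : CharZero K := CharP.charP_to_charZero K
    exact hz0 (eq_zero_of_charZero z i k hi hk h1 h2)

end Pool.Agent.Results.MP_c8c065_al.JacobsonNil
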